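import Pool.Agent.H458.AR.Fld
import Pool.Graph.R_pool_sql_team_seeded_63374d34.N227.PQ.Det
import Pool.Graph.R_pool_sql_team_seeded_63374d34.N849.PQ.Int

/-!
# Project AR, part SRG: integral Gram matrices with `D G⁻¹` integral
-/

set_option autoImplicit false
set_option linter.all false

open IsDedekindDomain NumberField Matrix Polynomial nonZeroDivisors
open scoped Classical

namespace Pool.Agent.H161.AR458

open Pool.Agent.N922.PQ
open Pool.Agent.N874.PP (Ev Sq1 U0)
open Pool.Agent.H458.AR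
open Pool.Agent.N227.PQ (co_crd eq_co co_smul co_int_smul co_th det_T)

section ded

variable {O L : Type} [CommRing O] [IsDedekindDomain O] [Field L] [Algebra O L] [IsFractionRing O L]

/-- For a non-zero element `β` of `O` and a prime `𝔓` there is `x` with `β ∣ x ^ 2` and
`2 v (x) ≤ v (β) + 1`. -/
theorem exists_int (𝔓 : HeightOneSpectrum O) (β : O) (hβ : β ≠ 0) :
    ∃ x : O, β ∣ x ^ 2 ∧ ∃ m n : ℕ, n ≤ 2 * m ∧ 2 * m ≤ n + 1 ∧
      𝔓.intValuation β ≤ WithZero.exp (-(n : ℤ)) ∧ ¬ 𝔓.intValuation x ≤ WithZero.exp (-((m + 1 : ℕ) : ℤ)) := by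
  have hs : Ideal.span {β} ≠ 0 := by
    rw [Ideal.zero_eq_bot, Ne, Ideal.span_singleton_eq_bot]
    exact hβ
  obtain ⟨n, 𝔟, hb, he⟩ := WfDvdMonoid.max_power_factor hs 𝔓.irreducible
  set m := (n + 1) / 2 with hm
  have h1 : ¬ (𝔓.asIdeal ^ m * 𝔟 ≤ 𝔓.asIdeal ^ (m + 1)) := by
    intro h
    rw [← Ideal.dvd_iff_le, pow_succ, mul_dvd_mul_iff_left (pow_ne_zero _ 𝔓.ne_bot)] at h
    exact hb h
  obtain ⟨x, hx1, hx2⟩ := SetLike.not_le_iff_exists.1 h1
  refine ⟨x, ?_, m, n, by omega, by omega, ?_, ?_⟩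
  · have h2 : x ^ 2 ∈ Ideal.span {β} := by
      rw [he]
      have h3 : x ^ 2 ∈ (𝔓.asIdeal ^ m * 𝔟) ^ 2 := Ideal.pow_mem_pow hx1 2
      have h4 : (𝔓.asIdeal ^ m * 𝔟) ^ 2 ≤ 𝔓.asIdeal ^ n * 𝔟 := by
        rw [← Ideal.dvd_iff_le, mul_pow, ← pow_mul]
        refine mul_dvd_mul (pow_dvd_pow _ (by omega)) (dvd_pow_self _ two_ne_zero)
      exact h4 h3
    exact Ideal.mem_span_singleton.1 h2
  · rw [HeightOneSpectrum.intValuation_le_pow_iff_dvd, he]
    exact dvd_mul_right _ _
  · rw [HeightOneSpectrum.intValuation_le_pow_iff_mem]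
    exact hx2

theorem exists_elt (𝔓 : HeightOneSpectrum O) (α : L) (hα : α ≠ 0) :
    ∃ x : L, x ≠ 0 ∧ (∃ c : O, algebraMap O L c = x ^ 2 / α) ∧
      WithZero.log (𝔓.valuation L α) - 1 ≤ 2 * WithZero.log (𝔓.valuation L x) := by
  obtain ⟨p, q, hpq⟩ := IsLocalization.exists_mk'_eq O⁰ α
  have hq : (q : O) ≠ 0 := nonZeroDivisors.ne_zero q.2
  have hp : p ≠ 0 := by
    rintro rfl
    apply hα
    rw [← hpq, IsLocalization.mk'_zero]
  rw [IsFractionRing.mk'_eq_div] at hpq
  have hinj : Function.Injective (algebraMap O L) := IsFractionRing.injective O L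
  have hq' : algebraMap O L q ≠ 0 := by
    rw [Ne, FaithfulSMul.algebraMap_eq_zero_iff]; exact hq
  have hp' : algebraMap O L p ≠ 0 := by
    rw [Ne, FaithfulSMul.algebraMap_eq_zero_iff]; exact hp
  have hβ : p * (q : O) ≠ 0 := mul_ne_zero hp hq
  obtain ⟨x, ⟨c, hc⟩, m, n, h1, h2, h3, h4⟩ := exists_int 𝔓 (p * q) hβ
  have hx0 : x ≠ 0 := by
    rintro rfl
    apply h4
    rw [map_zero]
    exact zero_le
  have hx' : algebraMap O L x ≠ 0 := by
    rw [Ne, FaithfulSMul.algebraMap_eq_zero_iff]; exact hx0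
  refine ⟨algebraMap O L x / algebraMap O L q, div_ne_zero hx' hq', ⟨c, ?_⟩, ?_⟩
  · rw [← hpq]
    have h5 := congrArg (algebraMap O L) hc
    rw [map_pow, map_mul, map_mul] at h5
    field_simp
    rw [h5]
    ring
  · have vx : 𝔓.valuation L (algebraMap O L x) ≠ 0 := (Valuation.ne_zero_iff _).2 hx'
    have vq : 𝔓.valuation L (algebraMap O L q) ≠ 0 := (Valuation.ne_zero_iff _).2 hq'
    have vp : 𝔓.valuation L (algebraMap O L p) ≠ 0 := (Valuation.ne_zero_iff _).2 hp'
    rw [← hpq, map_div₀, map_div₀, WithZero.log_div vp vq, WithZero.log_div vx vq]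
    have h6 : WithZero.log (𝔓.valuation L (algebraMap O L p)) +
        WithZero.log (𝔓.valuation L (algebraMap O L q)) ≤ -(n : ℤ) := by
      rw [← WithZero.log_mul vp vq, ← map_mul, ← map_mul, HeightOneSpectrum.valuation_of_algebraMap]
      rw [WithZero.log_le_iff_le_exp]
      · exact h3
      · exact HeightOneSpectrum.intValuation_ne_zero 𝔓 _ hβ
    have h7 : -((m + 1 : ℕ) : ℤ) < WithZero.log (𝔓.valuation L (algebraMap O L x)) := by
      rw [← not_le, WithZero.log_le_iff_le_exp vx, HeightOneSpectrum.valuation_of_algebraMap]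
      exact h4
    push_cast at h7
    omega

/-- The dual of the lattice `{x | x ^ 2 / α ∈ O}`. -/
theorem dual_mem (α : L) (hα : α ≠ 0) (D : O) (hD0 : D ≠ 0)
    (hD : ∀ 𝔓 : HeightOneSpectrum O, ¬ Ev 𝔓 α → D ∈ 𝔓.asIdeal) (y : L)
    (hy : ∀ x : L, (∃ c : O, algebraMap O L c = x ^ 2 / α) → ∃ c : O, algebraMap O L c = x * y / α) :
    ∃ c : O, algebraMap O L c = (algebraMap O L D * y) ^ 2 / α := by
  by_cases hy0 : y = 0
  · exact ⟨0, by rw [hy0]; simp⟩
  have hD' : algebraMap O L D ≠ 0 := by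
    rw [Ne, FaithfulSMul.algebraMap_eq_zero_iff]; exact hD0
  refine HeightOneSpectrum.mem_integers_of_valuation_le_one L _ fun 𝔓 => ?_
  obtain ⟨x, hx0, hx1, hx2⟩ := exists_elt 𝔓 α hα
  obtain ⟨c, hc⟩ := hy x hx1
  have vx : 𝔓.valuation L x ≠ 0 := (Valuation.ne_zero_iff _).2 hx0
  have vy : 𝔓.valuation L y ≠ 0 := (Valuation.ne_zero_iff _).2 hy0
  have va : 𝔓.valuation L α ≠ 0 := (Valuation.ne_zero_iff _).2 hα
  have vD : 𝔓.valuation L (algebraMap O L D) ≠ 0 := (Valuation.ne_zero_iff _).2 hD'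
  have h1 : WithZero.log (𝔓.valuation L x) + WithZero.log (𝔓.valuation L y) -
      WithZero.log (𝔓.valuation L α) ≤ 0 := by
    rw [← WithZero.log_mul vx vy, ← WithZero.log_div (mul_ne_zero vx vy) va, ← map_mul, ← map_div₀,
      ← hc]
    rw [WithZero.log_le_iff_le_exp (by
      rw [hc, map_div₀, map_mul]
      exact div_ne_zero (mul_ne_zero vx vy) va), WithZero.exp_zero]
    exact HeightOneSpectrum.valuation_le_one 𝔓 c
  have h2 : WithZero.log (𝔓.valuation L (algebraMap O L D)) ≤ 0 := by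
    rw [WithZero.log_le_iff_le_exp vD, WithZero.exp_zero]
    exact HeightOneSpectrum.valuation_le_one 𝔓 D
  have h3 : (∃ j : ℤ, WithZero.log (𝔓.valuation L α) = 2 * j) ∨
      WithZero.log (𝔓.valuation L (algebraMap O L D)) < 0 := by
    by_cases he : Ev 𝔓 α
    · left
      obtain ⟨z, hz⟩ := he
      refine ⟨WithZero.log (𝔓.valuation L z), ?_⟩
      rw [hz, WithZero.log_pow]
      simp
    · right
      rw [WithZero.log_lt_iff_lt_exp vD, WithZero.exp_zero, HeightOneSpectrum.valuation_lt_one_iff_mem]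
      exact hD 𝔓 he
  have v3 : 𝔓.valuation L ((algebraMap O L D * y) ^ 2 / α) ≠ 0 :=
    (Valuation.ne_zero_iff _).2 (div_ne_zero (pow_ne_zero _ (mul_ne_zero hD' hy0)) hα)
  rw [← WithZero.exp_zero, ← WithZero.log_le_iff_le_exp v3, map_div₀, map_pow, map_mul,
    WithZero.log_div (pow_ne_zero _ (mul_ne_zero vD vy)) va, WithZero.log_pow,
    WithZero.log_mul vD vy]
  rw [two_nsmul]
  rcases h3 with ⟨j, hj⟩ | h3 <;> omega

end ded

section cub

variable {L : Type} [Field L] [NumberField L] {a b : ℤ} {θ : L}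

/-- The Gram matrix of `c₂(x y / α)` for a basis of `L` is non-degenerate. -/
theorem gram_ne (h : IsCub a b θ) (α : L) (e : Fin 3 → L) (hα : α ≠ 0)
    (hli : LinearIndependent ℚ e) :
    (Matrix.of fun i j => h.co 2 (e i * e j / α) : Matrix (Fin 3) (Fin 3) ℚ).det ≠ 0 := by
  set Gq : Matrix (Fin 3) (Fin 3) ℚ := Matrix.of fun i j => h.co 2 (e i * e j / α) with hGq
  set P : Matrix (Fin 3) (Fin 3) ℚ := Matrix.of fun i k => h.basis.repr (e i) k with hP
  have hPe : ∀ i, e i = ∑ k, P i k • h.basis k := by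
    intro i
    rw [← h.basis.sum_repr (e i)]
    rfl
  have hfac : Gq = P * (Matrix.of fun i j : Fin 3 => h.co 2 (h.basis i * h.basis j * α⁻¹)) * Pᵀ := by
    ext i j
    rw [Matrix.mul_apply, hGq, Matrix.of_apply, div_eq_mul_inv]
    conv_lhs => rw [hPe j, Finset.mul_sum, Finset.sum_mul, map_sum]
    refine Finset.sum_congr rfl fun l _ => ?_
    rw [Matrix.mul_apply, Finset.sum_mul]
    conv_lhs => rw [hPe i, Finset.sum_mul, Finset.sum_mul, map_sum]
    refine Finset.sum_congr rfl fun k _ => ?_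
    rw [Matrix.of_apply, Matrix.transpose_apply, smul_mul_smul_comm, smul_mul_assoc, map_smul,
      smul_eq_mul]
    ring
  have hPdet : P.det ≠ 0 := by
    intro h0
    obtain ⟨v, hv0, hv⟩ := Matrix.exists_vecMul_eq_zero_iff.2 h0
    have : ∑ i, v i • e i = 0 := by
      have e1 : ∑ i, v i • e i = ∑ k, (v ᵥ* P) k • h.basis k := by
        calc ∑ i, v i • e i = ∑ i, ∑ k, (v i * P i k) • h.basis k := by
              refine Finset.sum_congr rfl fun i _ => ?_
              rw [hPe i, Finset.smul_sum]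
              simp_rw [smul_smul]
          _ = ∑ k, ∑ i, (v i * P i k) • h.basis k := Finset.sum_comm
          _ = ∑ k, (v ᵥ* P) k • h.basis k := by
              refine Finset.sum_congr rfl fun k _ => ?_
              rw [← Finset.sum_smul]
              rfl
      rw [e1, hv]
      simp
    apply hv0
    ext i
    exact Fintype.linearIndependent_iff.1 hli v this i
  rw [hfac, Matrix.det_mul, Matrix.det_mul, det_T, Matrix.det_transpose]
  have hN : Algebra.norm ℚ α⁻¹ ≠ 0 := Algebra.norm_ne_zero_iff.2 (inv_ne_zero hα)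
  exact mul_ne_zero (mul_ne_zero hPdet (neg_ne_zero.2 hN)) hPdet

end cub

/-- Part SRG. -/
theorem srg : Pool.Agent.H458.AR.S_SRG := by
  intro L O _ _ _ _ _ _ _ a b θ h hsq α e hα hSR D hD0 hD
  have hint := Pool.Agent.N849.PQ.int L a b θ h hsq
  -- integral elements and `O`
  have hO : ∀ x : L, (∃ c : O, algebraMap O L c = x) ↔ IsIntegral ℤ x := by
    intro x
    exact (IsIntegralClosure.isIntegral_iff (A := O) (R := ℤ) (x := x)).symm
  have hthint : IsIntegral ℤ θ := (hint θ).2 ⟨![0, 1, 0], by simp [Crd]⟩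
  -- integral elements have integral coordinates
  have hco : ∀ x : L, IsIntegral ℤ x → ∀ i, ∃ c : ℤ, (c : ℚ) = h.co i x := by
    intro x hx i
    obtain ⟨v, hv⟩ := (hint x).1 hx
    refine ⟨v i, ?_⟩
    have e1 : x = (((v 0 : ℤ) : ℚ) : L) + (((v 1 : ℤ) : ℚ) : L) * θ + (((v 2 : ℤ) : ℚ) : L) * θ ^ 2 := by
      rw [hv]; push_cast; rfl
    have := co_crd h ((v 0 : ℤ) : ℚ) ((v 1 : ℤ) : ℚ) ((v 2 : ℤ) : ℚ)
    rw [← e1] at this
    fin_cases i
    · exact this.1.symm
    · exact this.2.1.symm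
    · exact this.2.2.symm
  -- products
  have hmul : ∀ x y : L, IsIntegral ℤ (x ^ 2 / α) → IsIntegral ℤ (y ^ 2 / α) →
      IsIntegral ℤ (x * y / α) := by
    intro x y hx hy
    refine IsIntegral.of_pow (n := 2) (by norm_num) ?_
    have e1 : (x * y / α) ^ 2 = (x ^ 2 / α) * (y ^ 2 / α) := by
      field_simp
    rw [e1]
    exact hx.mul hy
  have hei : ∀ i, IsIntegral ℤ (e i ^ 2 / α) := by
    intro i
    refine (hSR.mem (e i)).2 ⟨Pi.single i 1, ?_⟩
    rw [Finset.sum_eq_single i]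
    · simp
    · intro j _ hj
      simp [Pi.single_apply, hj]
    · intro hh
      exact absurd (Finset.mem_univ i) hh
  choose G hG using fun i j => hco _ (hmul (e i) (e j) (hei i) (hei j)) 2
  choose B hB using fun i j => hco _ (hmul (e i) (e j) (hei i) (hei j)) 1
  set Gq : Matrix (Fin 3) (Fin 3) ℚ := Matrix.of fun i j => h.co 2 (e i * e j / α) with hGq
  have hunit : IsUnit Gq.det := (gram_ne h α e hα hSR.li).isUnit
  -- the dual basis
  have hkey : ∀ i, ∃ c : Fin 3 → ℤ, ∀ k, (c k : ℚ) = (D : ℚ) * Gq⁻¹ i k := by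
    intro i
    set y : L := ∑ k, Gq⁻¹ i k • e k with hy
    -- values of the form at `y`
    have hval : ∀ j, h.co 2 (e j * y / α) = if i = j then 1 else 0 := by
      intro j
      have e1 : e j * y / α = ∑ k, Gq⁻¹ i k • (e k * e j / α) := by
        rw [hy, Finset.mul_sum, Finset.sum_div]
        refine Finset.sum_congr rfl fun k _ => ?_
        rw [mul_smul_comm, smul_div_assoc, mul_comm (e j)]
      rw [e1, map_sum]
      have e2 : ∑ k, h.co 2 (Gq⁻¹ i k • (e k * e j / α)) = (Gq⁻¹ * Gq) i j := by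
        rw [Matrix.mul_apply]
        refine Finset.sum_congr rfl fun k _ => ?_
        rw [map_smul, smul_eq_mul, hGq, Matrix.of_apply]
      rw [e2, Matrix.nonsing_inv_mul _ hunit, Matrix.one_apply]
    have hval2 : ∀ x : L, IsIntegral ℤ (x ^ 2 / α) → ∃ c : ℤ, (c : ℚ) = h.co 2 (x * y / α) := by
      intro x hx
      obtain ⟨c, hc⟩ := (hSR.mem x).1 hx
      refine ⟨c i, ?_⟩
      have e1 : x * y / α = ∑ j, (c j : L) * (e j * y / α) := by
        rw [hc, Finset.sum_mul, Finset.sum_div]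
        refine Finset.sum_congr rfl fun j _ => by ring
      rw [e1, map_sum]
      simp_rw [co_int_smul, hval]
      simp
    have hth : ∀ x : L, IsIntegral ℤ (x ^ 2 / α) → IsIntegral ℤ ((θ * x) ^ 2 / α) := by
      intro x hx
      have e1 : (θ * x) ^ 2 / α = θ ^ 2 * (x ^ 2 / α) := by ring
      rw [e1]
      exact (hthint.pow 2).mul hx
    have hint2 : ∀ x : L, IsIntegral ℤ (x ^ 2 / α) → IsIntegral ℤ (x * y / α) := by
      intro x hx
      obtain ⟨c0, hc0⟩ := hval2 x hx
      obtain ⟨c1, hc1⟩ := hval2 _ (hth x hx)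
      obtain ⟨c2, hc2⟩ := hval2 _ (hth _ (hth x hx))
      have e1 : θ * x * y / α = θ * (x * y / α) := by ring
      have e2 : θ * (θ * x) * y / α = θ ^ 2 * (x * y / α) := by ring
      rw [e1, (co_th h _).1] at hc1
      rw [e2, (co_th h _).2, ← hc0] at hc2
      rw [hint]
      refine ⟨![c2 + a * c0, c1, c0], ?_⟩
      have e3 := eq_co h (x * y / α)
      rw [Crd]
      conv_lhs => rw [e3]
      rw [← hc0, ← hc1, show h.co 0 (x * y / α) = ((c2 + a * c0 : ℤ) : ℚ) by
        push_cast; linarith]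
      simp
    have hDO : algebraMap O L (D : O) = (D : L) := map_intCast _ _
    have hDL : (D : L) ≠ 0 := Int.cast_ne_zero.mpr hD0
    have hmem := dual_mem α hα (D : O) (by
      intro hz
      rw [hz, map_zero] at hDO
      exact hDL hDO.symm) hD y (fun x hx => (hO _).2 (hint2 x ((hO _).1 hx)))
    rw [hDO] at hmem
    obtain ⟨c, hc⟩ := (hSR.mem _).1 ((hO _).1 hmem)
    refine ⟨c, fun k => ?_⟩
    have e3 : ∑ k, ((c k : ℚ) - (D : ℚ) * Gq⁻¹ i k) • e k = 0 := by
      simp_rw [sub_smul]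
      rw [Finset.sum_sub_distrib, sub_eq_zero]
      have e4 : ∑ k, (c k : ℚ) • e k = (D : L) * y := by
        rw [hc]
        refine Finset.sum_congr rfl fun k _ => ?_
        rw [Rat.smul_def]
        push_cast
        rfl
      rw [e4, hy, Finset.mul_sum]
      refine Finset.sum_congr rfl fun k _ => ?_
      rw [Rat.smul_def, Rat.smul_def]
      push_cast
      ring
    have := Fintype.linearIndependent_iff.1 hSR.li _ e3 k
    linarith
  choose K hK using hkey
  refine ⟨Matrix.of G, Matrix.of K, Matrix.of B, ?_, ?_, fun i j => hG i j, fun i j => hB i j, ?_⟩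
  · ext i j
    rw [Matrix.transpose_apply, Matrix.of_apply, Matrix.of_apply]
    have : (G j i : ℚ) = G i j := by rw [hG, hG, mul_comm (e j)]
    exact_mod_cast this
  · ext i j
    rw [Matrix.transpose_apply, Matrix.of_apply, Matrix.of_apply]
    have : (B j i : ℚ) = B i j := by rw [hB, hB, mul_comm (e j)]
    exact_mod_cast this
  · have e1 : Gq * Gq⁻¹ = 1 := Matrix.mul_nonsing_inv _ hunit
    ext i j
    have e2 : ((Matrix.of G * Matrix.of K : Matrix (Fin 3) (Fin 3) ℤ) i j : ℚ) =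
        (D : ℚ) * (Gq * Gq⁻¹) i j := by
      rw [Matrix.mul_apply, Matrix.mul_apply]
      push_cast
      rw [Finset.mul_sum]
      refine Finset.sum_congr rfl fun k _ => ?_
      rw [Matrix.of_apply, Matrix.of_apply, hG, hK, hGq, Matrix.of_apply]
      ring
    rw [e1] at e2
    rw [Matrix.smul_apply]
    by_cases hij : i = j
    · subst hij
      rw [Matrix.one_apply_eq] at e2 ⊢
      have : ((Matrix.of G * Matrix.of K : Matrix (Fin 3) (Fin 3) ℤ) i i : ℚ) = ((D : ℤ) : ℚ) := by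
        rw [e2, mul_one]
      rw [smul_eq_mul, mul_one]
      exact_mod_cast this
    · rw [Matrix.one_apply_ne hij] at e2 ⊢
      rw [mul_zero] at e2
      rw [smul_zero]
      exact_mod_cast e2

end Pool.Agent.H161.AR458
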